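import Pool.Agent.H88.MCR.Stmts

/-! Board mcr, row MPA: the image of a forest under an injection is a forest. -/

set_option autoImplicit false

namespace Pool.MCR

/-- Walks in the image graph starting at `φ a` come from walks in the graph. -/
theorem MPA_lift {W V : Type} (F : SimpleGraph W) (φ : W ↪ V) {x y : V}
    (w : (F.map φ).Walk x y) : ∀ (a : W) (hx : (SimpleGraph.Embedding.map φ F).toHom a = x),
    ∃ (b : W) (hy : (SimpleGraph.Embedding.map φ F).toHom b = y) (q : F.Walk a b),
      (q.map (SimpleGraph.Embedding.map φ F).toHom).copy hx hy = w := by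
  induction w with
  | nil =>
    intro a hx
    refine ⟨a, hx, SimpleGraph.Walk.nil, ?_⟩
    subst hx
    rfl
  | cons h w' ih =>
    intro a hx
    obtain ⟨a', z', hadj, ha', hz'⟩ := (SimpleGraph.map_adj φ F _ _).1 h
    have haa : a' = a := φ.injective (ha'.trans hx.symm)
    subst haa
    obtain ⟨b, hy, q, hq⟩ := ih z' hz'
    refine ⟨b, hy, SimpleGraph.Walk.cons hadj q, ?_⟩
    subst hx
    subst hy
    subst hz'
    subst hq
    rfl

theorem mpa_thm : MPA_S := by
  intro W V F φ hF v w hw
  have hn : ¬ w.Nil := hw.not_nil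
  obtain ⟨a, ha⟩ : ∃ a : W, φ a = v := by
    cases w with
    | nil => exact absurd SimpleGraph.Walk.Nil.nil hn
    | cons h w' =>
      obtain ⟨a', z', hadj, ha', hz'⟩ := (SimpleGraph.map_adj φ F _ _).1 h
      exact ⟨a', ha'⟩
  obtain ⟨b, hb, q, hq⟩ := MPA_lift F φ w a ha
  have hab : b = a := φ.injective (hb.trans ha.symm)
  subst hab
  subst ha
  have h1 : (q.map (SimpleGraph.Embedding.map φ F).toHom) = w := hq
  rw [← h1] at hw
  exact hF q hw.of_map

end Pool.MCR
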