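import Pool.Agent.H88.MCR.Stmts3

/-!
Row RKR of the board `mcr`: a rank function exists (relative version of RNK by helper31).
-/

namespace Pool.MCR

theorem rkr_thm (h1 : KLT_S) : RKR_S := by
  classical
  intro L _ R n D w _ _
  obtain ⟨hirr, htr, -, -, -⟩ := h1 L (D.pos w)
  let F : ℕ → Finset ℕ := fun x => (Finset.range n).filter
    (fun y => R w y ∧ D.S w y = true ∧ KL (D.pos w) (D.nx w y) (D.nx w x))
  have hF : ∀ x y, y ∈ F x ↔ y < n ∧ R w y ∧ D.S w y = true ∧
      KL (D.pos w) (D.nx w y) (D.nx w x) := by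
    intro x y
    show y ∈ (Finset.range n).filter _ ↔ _
    rw [Finset.mem_filter, Finset.mem_range]
  refine ⟨fun x => 1 + ((F x).card : ℤ), fun x => ?_, ?_⟩
  · show (1 : ℤ) ≤ 1 + ((F x).card : ℤ)
    have := Int.natCast_nonneg (F x).card
    omega
  · intro x hx y _ hxw _ _ hSx _ hK
    have h2 : (F x).card < (F y).card := by
      apply Finset.card_lt_card
      rw [Finset.ssubset_iff_of_subset]
      · refine ⟨x, (hF y x).2 ⟨hx, hxw, hSx, hK⟩, fun h3 => ?_⟩
        exact hirr _ ((hF x x).1 h3).2.2.2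
      · intro z hz
        obtain ⟨a, b, c, d⟩ := (hF x z).1 hz
        exact (hF y z).2 ⟨a, b, c, htr _ _ _ d hK⟩
    show 1 + ((F x).card : ℤ) < 1 + ((F y).card : ℤ)
    have h3 : ((F x).card : ℤ) < ((F y).card : ℤ) := by exact_mod_cast h2
    omega

end Pool.MCR
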